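import Pool.Agent.TH19.DS.E

/-! MP_ec2393_nt: the elements of the double shuffle Lie algebra `dm` with at most `m` letters `x₀`
in each word (that is, with weight minus depth at most `m`) form a space of finite dimension, with
explicit bounds for the dimension and for the weights. -/

set_option autoImplicit false

namespace Pool.Agent.Results.MP_ec2393_nt.FewLetters

open Pool.Agent.H777R4.DM

/-- The elements of `dm` all of whose words contain at most `m` letters `x₀`. -/
def few (m : ℕ) : Submodule ℚ A where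
  carrier := {ψ | IsDM ψ ∧ ∀ u, co ψ u ≠ 0 → u.count 0 ≤ m}
  add_mem' := by
    rintro ψ φ ⟨h1, h2⟩ ⟨h3, h4⟩
    refine ⟨isDM_add h1 h3, fun u hu => ?_⟩
    rw [co_add] at hu
    by_cases h : co ψ u = 0
    · refine h4 u fun h' => hu ?_
      rw [h, h', add_zero]
    · exact h2 u h
  zero_mem' := ⟨isDM_zero, fun u hu => absurd (co_zero u) hu⟩
  smul_mem' := by
    rintro c ψ ⟨h1, h2⟩
    refine ⟨isDM_smul h1 c, fun u hu => h2 u fun h' => hu ?_⟩
    rw [co_smul, h', mul_zero]

/-- The elements of `dm`, homogeneous of weight `w`, all of whose words contain at most `m`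
letters `x₀`. -/
def fewW (m w : ℕ) : Submodule ℚ A where
  carrier := {ψ | IsDM ψ ∧ ∀ u, co ψ u ≠ 0 → u.count 0 ≤ m ∧ u.length = w}
  add_mem' := by
    rintro ψ φ ⟨h1, h2⟩ ⟨h3, h4⟩
    refine ⟨isDM_add h1 h3, fun u hu => ?_⟩
    rw [co_add] at hu
    by_cases h : co ψ u = 0
    · refine h4 u fun h' => hu ?_
      rw [h, h', add_zero]
    · exact h2 u h
  zero_mem' := ⟨isDM_zero, fun u hu => absurd (co_zero u) hu⟩
  smul_mem' := by
    rintro c ψ ⟨h1, h2⟩
    refine ⟨isDM_smul h1 c, fun u hu => h2 u fun h' => hu ?_⟩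
    rw [co_smul, h', mul_zero]

/-- The number of sequences `g₀, …, g_{k-1}` of integers with `0 ≤ g_i < k - i` and
`g₀ + ⋯ + g_{k-1} = w - k - 1` (the number of permutations of `k` letters with `w - k - 1`
inversions). -/
def codes (k w : ℕ) : ℕ :=
  ((Fintype.piFinset fun i : Fin k => Finset.range (k - i)).filter fun g =>
    ∑ i, g i + k + 1 = w).card

/-- The elements of `dm` with at most `m` letters `x₀` in each word form a space of dimension at most
`∑_{k=2}^m k!`, their words have length at most `m + 1 + m (m - 1) / 2`, and the part of weight `w`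
has dimension at most `∑_{k=2}^m codes k w`. -/
theorem result (m : ℕ) :
    Module.Finite ℚ (few m) ∧
    Module.finrank ℚ (few m) ≤ ∑ k ∈ Finset.Icc 2 m, k.factorial ∧
    (∀ ψ ∈ few m, ∀ u, co ψ u ≠ 0 → u.length ≤ m + 1 + m * (m - 1) / 2) ∧
    ∀ w, Module.Finite ℚ (fewW m w) ∧
      Module.finrank ℚ (fewW m w) ≤ ∑ k ∈ Finset.Icc 2 m, codes k w := by
  have h1 := TH19.DS.fin_of_words (few m) (TH19.DS.SA m) (by
    rintro ψ ⟨h1, h2⟩ h3
    refine TH19.DS.inj h1 m h2 fun k hk hkm g hg => h3 _ ?_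
    unfold TH19.DS.SA
    rw [Finset.mem_biUnion]
    exact ⟨k, Finset.mem_Icc.2 ⟨hk, hkm⟩, Finset.mem_image.2 ⟨g, hg, rfl⟩⟩)
  refine ⟨h1.1, h1.2.trans (TH19.DS.card_SA m), ?_, fun w => ?_⟩
  · rintro ψ ⟨h1, h2⟩ u hu
    by_contra hcon
    have h3 : comp u.length ψ = 0 := by
      refine TH19.DS.inj (Pool.Agent.H217R3.DMC.taskComp ψ u.length h1) m (fun t ht => ?_) ?_
      · rw [co_comp] at ht
        split_ifs at ht with h4
        · exact h2 t ht
        · exact absurd rfl ht
      · intro k hk hkm g hg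
        rw [co_comp, if_neg]
        rw [TH19.DS.ofFn_length_sum]
        have := TH19.DS.len_bound hk hkm hg
        omega
    have h4 := co_comp u.length ψ u
    rw [h3, co_zero, if_pos rfl] at h4
    exact hu h4.symm
  · have h2 := TH19.DS.fin_of_words (fewW m w) (TH19.DS.SW m w) (by
      rintro ψ ⟨h1, h2⟩ h3
      refine TH19.DS.inj h1 m (fun t ht => (h2 t ht).1) fun k hk hkm g hg => ?_
      by_cases h4 : ∑ i, g i + k + 1 = w
      · refine h3 _ ?_
        unfold TH19.DS.SW
        rw [Finset.mem_biUnion]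
        exact ⟨k, Finset.mem_Icc.2 ⟨hk, hkm⟩,
          Finset.mem_image.2 ⟨g, Finset.mem_filter.2 ⟨hg, h4⟩, rfl⟩⟩
      · by_contra h5
        have := (h2 _ h5).2
        rw [TH19.DS.ofFn_length_sum] at this
        exact h4 this)
    exact ⟨h2.1, h2.2.trans (TH19.DS.card_SW m w)⟩

end Pool.Agent.Results.MP_ec2393_nt.FewLetters
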